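import Pool.Agent.H68.SF.LT4

/-! `T_LLE`: enumeration of the codes of the finite sequences. -/

set_option linter.unusedVariables false

open Ordinal Cardinal Order Set
open scoped ZFSet

namespace SF

/-- the enumeration of the codes of the lists of length `n` -/
noncomputable def eL (g : V) : ℕ → V
  | 0 => {ZFSet.pair ∅ ∅}
  | n + 1 => enP g (eL g n)

theorem it_eL (M : V → Prop) (v : ℕ → V) (n : ℕ) :
    it (fun _ u => enP (u 1) (u 0)) (fun _ _ => {ZFSet.pair ∅ ∅}) M v n = eL (v 0) n := by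
  induction n with
  | zero => rfl
  | succ n ih =>
    simp only [it, eL, cons_zero, cons_succ]
    rw [ih]

theorem enm_rg {e y : V} (h : Enm e y) : rg e = y := by
  ext z
  rw [mem_rg]
  constructor
  · rintro ⟨x, hx⟩
    obtain ⟨ξ, w, hw, hq⟩ := h.pr _ hx
    rw [(ZFSet.pair_inj.1 hq).2]
    exact hw
  · exact h.onto z

theorem enm_eL (hLEP : T_LEP) {g x : V} (h : Enm g x) (n : ℕ) : Enm (eL g n) (ls x n) := by
  induction n with
  | zero =>
    refine ⟨?_, ?_, ?_⟩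
    · intro q hq
      refine ⟨0, ∅, ZFSet.mem_singleton.2 rfl, ?_⟩
      rw [show (0 : Ordinal.{0}).toZFSet = ∅ by simp]
      exact ZFSet.mem_singleton.1 hq
    · intro a b c hb hc
      have hb' := ZFSet.pair_inj.1 (ZFSet.mem_singleton.1 hb)
      have hc' := ZFSet.pair_inj.1 (ZFSet.mem_singleton.1 hc)
      rw [hb'.2, hc'.2]
    · intro y hy
      refine ⟨∅, ?_⟩
      rw [ZFSet.mem_singleton.1 hy]
      exact ZFSet.mem_singleton.2 rfl
  | succ n ih => exact hLEP.1 _ _ _ _ h ih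

/-- the function `n ↦ eL g n` -/
noncomputable def eLH (g : V) : V := resS om fun y => eL g (nn y)

theorem pf_LLE (hLEP : T_LEP) (hLEQ : T_LEQ) : T_LLE := by
  refine ⟨fun g _ => enU (eLH g), ?_, ?_⟩
  · have h1 : Tm ZFm (fun _ v => eLH (v 0)) := by
      refine (Tm.resS (g := fun _ u => eL (u 1) (nn (u 0))) Tm.om ?_).congr fun M k v hv => rfl
      refine (Tm.it (f := fun _ u => enP (u 1) (u 0)) (g := fun _ _ => {ZFSet.pair ∅ ∅})
        (h := fun _ w => w 1) (hLEQ.1.rn fun i => if i = 0 then 1 else 0)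
        (Tm.sing (Tm.pair Tm.empty Tm.empty)) (Tm.var 1)).push (Tm.var 1) id |>.congr
        fun M k v hv => ?_
      show it _ _ M _ (nn (v 0)) = _
      exact it_eL M _ _
    exact Tm.at1 (F := fun _ x => enU x) hLEQ.2.1 h1
  · intro g x h
    have h1 : Enm (eLH g) (imS om fun y => eL g (nn y)) := by
      refine ⟨?_, svl_resS _ _, ?_⟩
      · intro q hq
        obtain ⟨y, hy, rfl⟩ := mem_resS.1 hq
        obtain ⟨n, rfl⟩ := mem_om.1 hy
        exact ⟨_, _, mem_imS.2 ⟨_, hy, rfl⟩, rfl⟩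
      · intro z hz
        obtain ⟨y, hy, rfl⟩ := mem_imS.1 hz
        exact ⟨y, pair_mem_resS.2 ⟨hy, rfl⟩⟩
    have h2 : ∀ t ∈ eLH g, ∃ n : ℕ, snd t = eL g n := by
      intro t ht
      obtain ⟨y, hy, rfl⟩ := mem_resS.1 ht
      exact ⟨_, snd_pair _ _⟩
    have h3 := hLEP.2.2 (eLH g) _ h1 (by
      intro t ht
      obtain ⟨n, hn⟩ := h2 t ht
      rw [hn, enm_rg (enm_eL hLEP h n)]
      exact enm_eL hLEP h n)
    have h4 : (⋃₀ (imS (eLH g) fun t => rg (snd t)) : ZFSet) = Lw x := by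
      ext z
      unfold Lw
      rw [ZFSet.mem_sUnion, ZFSet.mem_sUnion]
      constructor
      · rintro ⟨w, hw, hz⟩
        obtain ⟨t, ht, rfl⟩ := mem_imS.1 hw
        obtain ⟨n, hn⟩ := h2 t ht
        rw [hn, enm_rg (enm_eL hLEP h n)] at hz
        exact ⟨_, mem_imS.2 ⟨nS n, nS_mem_om _, rfl⟩, by rwa [nn_nS]⟩
      · rintro ⟨w, hw, hz⟩
        obtain ⟨y, hy, rfl⟩ := mem_imS.1 hw
        refine ⟨_, mem_imS.2 ⟨ZFSet.pair y (eL g (nn y)), pair_mem_resS.2 ⟨hy, rfl⟩, rfl⟩, ?_⟩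
        rw [snd_pair, enm_rg (enm_eL hLEP h _)]
        exact hz
    rw [h4] at h3
    exact h3

end SF
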