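import Pool.Agent.H9.SF.WDefs
import Pool.Agent.H7.SF.Iter

/-! WE: basic facts on the model `M` and the embedding `j`. -/

set_option autoImplicit false
set_option linter.unusedVariables false

open Ordinal Cardinal Order Set
open SF
open scoped ZFSet

namespace SF.H66

/-- countability of a set in terms of its cardinality -/
theorem ctb_iff {x : V} : (x : Set V).Countable ↔ x.card ≤ ℵ₀ := by
  rw [← Cardinal.le_aleph0_iff_set_countable]
  have h : #(x : Set V) = Cardinal.lift.{1, 0} (ZFSet.card x) := ZFSet.cardinalMk_coe_sort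
  rw [h, Cardinal.lift_le_aleph0]

theorem ctbl_of_countable {x : V} (h : (x : Set V).Countable) : Ctbl Al x := by
  rcases x.eq_empty_or_nonempty with h0 | h0
  · exact Or.inl h0
  · right
    obtain ⟨e, he⟩ := h.exists_eq_range h0
    have hm : ∀ y, y ∈ x ↔ ∃ n, e n = y := by
      intro y
      have : y ∈ (x : Set V) ↔ y ∈ Set.range e := by rw [he]
      exact this
    refine ⟨resS om fun y => e (nn y), trivial, isFunc_resS _ _ _ ?_, ?_⟩
    · intro y _
      exact (hm _).2 ⟨_, rfl⟩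
    · intro b hb
      obtain ⟨n, rfl⟩ := (hm b).1 hb
      refine ⟨nS n, mem_om.2 ⟨n, rfl⟩, pair_mem_resS.2 ⟨mem_om.2 ⟨n, rfl⟩, ?_⟩⟩
      rw [nn_nS]

theorem countable_of_onto {f x : V} (h : Onto f om x) : (x : Set V).Countable := by
  refine (Set.countable_range fun n : ℕ => app f (nS n)).mono ?_
  intro y hy
  obtain ⟨a, ha, hp⟩ := h.2 y hy
  obtain ⟨n, rfl⟩ := mem_om.1 ha
  exact ⟨n, app_eq (svl_of_isFunc h.1) hp⟩

theorem ctbl_iff {x : V} : Ctbl Al x ↔ (x : Set V).Countable := by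
  refine ⟨?_, ctbl_of_countable⟩
  rintro (rfl | ⟨f, -, hf⟩)
  · have h : ((∅ : V) : Set V) = ∅ := by
      ext z
      exact iff_of_false (ZFSet.notMem_empty z) (Set.notMem_empty z)
    rw [h]
    exact Set.countable_empty
  · exact countable_of_onto hf

theorem ctbl_ord {γ : Ordinal.{0}} : Ctbl Al γ.toZFSet ↔ γ < Ordinal.omega.{0} 1 := by
  rw [ctbl_iff, ctb_iff, Ordinal.card_toZFSet, ← Cardinal.ord_aleph, Cardinal.lt_ord,
    ← Cardinal.succ_aleph0, Order.lt_succ_iff]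

theorem we (hWA : T_WA) (hWB : T_WB) (hWC : T_WC) : T_WE := by
  intro M j hj
  obtain ⟨m0, hm0⟩ := hj.ne
  have hM : ZFC (· ∈ M) := by
    refine (hWB (· ∈ M) Al (fun x hx y hy => hj.trans x hx hy) (fun _ _ _ _ => trivial)
      ⟨m0, hm0⟩ ⟨∅, trivial⟩ ?_).2.2 hWC
    intro φ hφ v w
    have h1 := hj.elem.el φ (fun _ => m0) fun _ => hm0
    have h2 : Sat (· ∈ M) φ v ↔ Sat (· ∈ M) φ fun _ => m0 :=
      satP_congr _ _ φ _ _ fun i hi => absurd hi (by omega)
    have h3 : Sat Al φ w ↔ Sat Al φ fun _ => j m0 :=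
      satP_congr _ _ φ _ _ fun i hi => absurd hi (by omega)
    exact h2.trans (h1.trans h3.symm)
  have kM : ZFm (· ∈ M) := hM.toZFm
  have kA : ZFm Al := hWC.toZFm
  -- transfer
  have tr : ∀ {R : (V → Prop) → (ℕ → V) → Prop}, Dfb ZFm R → ∀ v, In (· ∈ M) v →
      (R (· ∈ M) v ↔ R Al fun i => j (v i)) := fun hR v hv =>
    (hWA ZFm (· ∈ M) Al j hj.elem kM kA).1 _ hR v hv
  have tr1 : ∀ {P : (V → Prop) → V → Prop}, Dfb ZFm (fun M v => P M (v 0)) → ∀ x ∈ M,
      (P (· ∈ M) x ↔ P Al (j x)) := fun hP x hx => tr hP (fun _ => x) fun _ => hx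
  have tr2 : ∀ {P : (V → Prop) → V → V → Prop}, Dfb ZFm (fun M v => P M (v 0) (v 1)) →
      ∀ x ∈ M, ∀ y ∈ M, (P (· ∈ M) x y ↔ P Al (j x) (j y)) := fun hP x hx y hy =>
    tr hP (cons x fun _ => y) (In.cons (fun _ => hy) hx)
  have e1 : ∀ x ∈ M, ∀ y ∈ M, (x = y ↔ j x = j y) :=
    tr2 (P := fun _ x y => x = y) (Dfb.eq (Tm.var 0) (Tm.var 1))
  have e2 : ∀ x ∈ M, ∀ y ∈ M, (x ∈ y ↔ j x ∈ j y) :=
    tr2 (P := fun _ x y => x ∈ y) (Dfb.mem (Tm.var 0) (Tm.var 1))
  have e4 : ∀ x ∈ M, ((j x : V) : Set V).Countable → ∀ y ∈ j x, ∃ z ∈ x, j z = y := by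
    intro x hx hc y hy
    have h1 : Ctbl (· ∈ M) x :=
      (tr1 (P := fun M x => Ctbl M x) (Dfb.ctbl (Tm.var 0)) x hx).2 (ctbl_of_countable hc)
    rcases h1 with rfl | ⟨f, hf, hon⟩
    · have h2 := (tr1 (P := fun _ x => x = ∅) (Dfb.eq (Tm.var 0) Tm.empty) ∅ hx).1 rfl
      have h3 : j ∅ = ∅ := h2
      rw [h3] at hy
      exact absurd hy (ZFSet.notMem_empty _)
    · have h2 : Onto (j f) om (j x) :=
        (tr2 (P := fun _ x y => Onto x om y) (Dfb.onto (Tm.var 0) Tm.om (Tm.var 1)) f hf x hx).1 hon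
      obtain ⟨a, ha, hp⟩ := h2.2 y hy
      obtain ⟨n, rfl⟩ := mem_om.1 ha
      have hn : nS n ∈ om := ha
      have h3 := pair_app_mem hon.1 hn
      have h4 := app_mem hon.1 hn
      refine ⟨_, h4, ?_⟩
      have h5 : ZFSet.pair (nS n) (j (app f (nS n))) ∈ j f :=
        (tr2 (P := fun _ x y => ZFSet.pair (nS n) x ∈ y)
          (Dfb.pairMem (Tm.nS n) (Tm.var 0) (Tm.var 1)) _ (hj.trans x hx h4) f hf).1 h3
      exact svl_of_isFunc h2.1 _ _ _ h5 hp
  refine ⟨hM, fun x hx y hy => ⟨(e1 x hx y hy).symm, (e2 x hx y hy).symm⟩, ?_, e4, ?_, ?_⟩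
  · intro t ht htr hc
    have hjt : (j t).IsTransitive :=
      (tr1 (P := fun _ x => x.IsTransitive) (Dfb.isTrans (Tm.var 0)) t ht).1 htr
    have h1 : ∀ x, x ∈ t → j x = x := by
      intro x
      induction x using ZFSet.inductionOn with
      | _ x ih =>
        intro hx
        have hxM : x ∈ M := hj.trans t ht hx
        ext y
        constructor
        · intro hy
          have hxj : j x ∈ j t := (e2 x hxM t ht).1 hx
          obtain ⟨z, hz, rfl⟩ := e4 t ht hc y (hjt _ hxj hy)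
          have hzx : z ∈ x := (e2 z (hj.trans t ht hz) x hxM).2 hy
          rw [ih z hzx hz]
          exact hzx
        · intro hy
          have hyt : y ∈ t := htr x hx hy
          have h2 := (e2 y (hj.trans t ht hyt) x hxM).1 hy
          rwa [ih y hy hyt] at h2
    refine ⟨?_, h1⟩
    ext y
    constructor
    · intro hy
      obtain ⟨z, hz, rfl⟩ := e4 t ht hc y hy
      rw [h1 z hz]
      exact hz
    · intro hy
      have h2 := (e2 y (hj.trans t ht hy) t ht).1 hy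
      rwa [h1 y hy] at h2
  · intro α hα
    exact (tr1 (P := fun _ x => IsOrd x) (Dfb.isOrd (Tm.var 0)) _ hα).1 ⟨α, rfl⟩
  · intro o ho hjo
    obtain ⟨α, rfl⟩ : IsOrd o :=
      (tr1 (P := fun _ x => IsOrd x) (Dfb.isOrd (Tm.var 0)) _ ho).2 ⟨_, hjo⟩
    refine ⟨α, rfl, ho, ?_, ?_⟩
    · intro h
      have h1 := (tr1 (P := fun M x => Ctbl M x) (Dfb.ctbl (Tm.var 0)) _ ho).1 h
      rw [hjo] at h1
      exact absurd (ctbl_ord.1 h1) (lt_irrefl _)
    · intro β hβ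
      have hβM : β.toZFSet ∈ M := hj.trans _ ho (Ordinal.toZFSet_mem_toZFSet_iff.2 hβ)
      refine (tr1 (P := fun M x => Ctbl M x) (Dfb.ctbl (Tm.var 0)) _ hβM).2 ?_
      have h1 := (e2 _ hβM _ ho).1 (Ordinal.toZFSet_mem_toZFSet_iff.2 hβ)
      rw [hjo] at h1
      obtain ⟨γ, hγ, hγ2⟩ := Ordinal.mem_toZFSet_iff.1 h1
      rw [← hγ2]
      exact ctbl_ord.2 hγ

end SF.H66
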