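import Pool.Agent.H56.SF.XB
import Pool.Agent.H7.SF.Iter

/-! AH: the elements of `HC` know themselves. -/

set_option autoImplicit false

open Ordinal Cardinal Order Set
open SF
open scoped ZFSet

namespace SF.H66

theorem bmap_le {B : V} [IsCBA B] {N' N : V} {b : El B} {σ : V → V → El B}
    (hσ : BMap N' N b σ) (x y : V) : σ x y ≤ b := by
  by_cases h : σ x y = ⊥
  · rw [h]; exact bot_le
  · rw [← hσ.tot x (hσ.dom x y h).1]
    exact le_iSup (fun y => σ x y) y

/-- transfer for relations of two arguments -/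
theorem tr2 (hTR : T_TR) {P : (V → Prop) → V → V → Prop}
    (hP : Dfb ZFm fun M v => P M (v 0) (v 1)) {B : V} [IsCBA B] {N' N : V} {b : El B}
    {σ : V → V → El B} (hN : NP N' N) (hσ : BMap N' N b σ) {x y x2 y2 : V}
    (h : σ x y ⊓ σ x2 y2 ≠ ⊥) : P (· ∈ N') x x2 ↔ P (· ∈ N) y y2 := by
  classical
  have h1 := hTR _ hP B N' N b σ hN hσ {(x, y), (x2, y2)}
    (by rw [Finset.inf_insert, Finset.inf_singleton]; exact h)
    (fun i => if i = 0 then (x, y) else (x2, y2)) (by
      intro i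
      by_cases hi : i = 0
      · simp [hi]
      · simp [hi])
  simpa using h1

/-- a known element and an element of the domain -/
theorem known_inf {B : V} [IsCBA B] {N' N : V} {b : El B} {σ : V → V → El B}
    (hσ : BMap N' N b σ) {x y x2 y2 : V} (h : σ x y ≠ ⊥) (h2 : σ x2 y2 = b) :
    σ x y ⊓ σ x2 y2 ≠ ⊥ := by
  rw [h2, inf_eq_left.2 (bmap_le hσ x y)]
  exact h

theorem exists_val {B : V} [IsCBA B] {N' N : V} {b : El B} {σ : V → V → El B}
    (hσ : BMap N' N b σ) {x : V} (hx : x ∈ N') {c : El B} (hc : c ≤ b) (hc0 : c ≠ ⊥) :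
    ∃ y, σ x y ⊓ c ≠ ⊥ := by
  by_contra hcon
  simp only [not_exists, not_not] at hcon
  apply hc0
  have h1 : c = ⨆ y, σ x y ⊓ c := by
    rw [← iSup_inf_eq, hσ.tot x hx, inf_eq_right.2 hc]
  rw [h1]
  simp [hcon]

/-- elements of `H'` know themselves -/
theorem ah1 (hTR : T_TR) (hAM : T_AM) {B : V} [IsCBA B] {N' N : V} {b : El B}
    {σ : V → V → El B} (hN : NP N' N) (hσ : BMap N' N b σ) (hb : b ≠ ⊥) {H' : V}
    (hH : σ H' HC = b) : H'.IsTransitive ∧ ∀ x ∈ H', σ x x = b ∧ x ∈ HC := by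
  have hHN : H' ∈ N' := (hσ.dom H' HC (by rw [hH]; exact hb)).1
  have trN : ∀ a ∈ N', ∀ c ∈ a, c ∈ N' := fun a ha c hc => hN.full.1 a ha hc
  have hHb : σ H' HC ≠ ⊥ := by rw [hH]; exact hb
  have htr : H'.IsTransitive := by
    refine (tr2 hTR (P := fun _ x _ => x.IsTransitive) (Dfb.isTrans (Tm.var 0)) hN hσ
      (known_inf hσ hHb hH)).2 SF.H56.xb_trans
  have key : ∀ x, x ∈ H' → σ x x = b := by
    intro x
    induction x using ZFSet.inductionOn with
    | _ x ih =>
      intro hx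
      have hxN : x ∈ N' := trN _ hHN _ hx
      have hu : ∀ y, σ x y ≠ ⊥ → y = x := by
        intro y hy
        have hyH : y ∈ HC := (hAM B N' N b σ hN hσ x y H' HC (known_inf hσ hy hH)).1.1 hx
        have hR : Dfb ZFm (fun _ u => u 0 = ∅ ∨ ∃ f ∈ u 1, Onto f om (u 0)) := by
          refine (Dfb.eq (Tm.var 0) Tm.empty).or ?_
          exact (Dfb.bex (R := fun _ u => Onto (u 0) om (u 1)) ktr_zfm (Tm.var 1)
            (Dfb.onto (Tm.var 0) Tm.om (Tm.var 1))).congr fun M k v hv => Iff.rfl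
        have h1 : x = ∅ ∨ ∃ f ∈ H', Onto f om x := by
          refine (tr2 hTR (P := fun _ x y => x = ∅ ∨ ∃ f ∈ y, Onto f om x) hR hN hσ
            (known_inf hσ hy hH)).2 ?_
          by_cases h0 : y = ∅
          · exact Or.inl h0
          · exact Or.inr (SF.H56.xb_onto hyH h0)
        rcases h1 with h1 | ⟨f', hf', hon⟩
        · have h2 := (hAM B N' N b σ hN hσ x y H' HC (known_inf hσ hy hH)).2.2.2.1 h1
          rw [h1, h2]
        · have hfN : f' ∈ N' := trN _ hHN _ hf'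
          obtain ⟨g, hg⟩ := exists_val hσ hfN (bmap_le hσ x y) hy
          have hg0 : σ f' g ≠ ⊥ := by
            intro h
            rw [h, bot_inf_eq] at hg
            exact hg rfl
          have hon2 : Onto g om y :=
            (tr2 hTR (P := fun _ x y => Onto x om y) (Dfb.onto (Tm.var 0) Tm.om (Tm.var 1))
              hN hσ hg).1 hon
          have happ : ∀ n : ℕ, app g (nS n) = app f' (nS n) := by
            intro n
            have hu : app f' (nS n) ∈ x := app_mem hon.1 (mem_om.2 ⟨n, rfl⟩)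
            have h3 := ih _ hu (htr x hx hu)
            have h4 : app f' (nS n) = app g (nS n) :=
              (tr2 hTR (P := fun _ x y => x = app y (nS n))
                (Dfb.eq (Tm.var 0) (Tm.app (Tm.var 1) (Tm.nS n))) hN hσ
                (x := app f' (nS n)) (y := app f' (nS n)) (x2 := f') (y2 := g)
                (by rw [inf_comm]; exact known_inf hσ hg0 h3)).1 rfl
            exact h4.symm
          ext z
          constructor
          · intro hz
            obtain ⟨a, ha, hp⟩ := hon2.2 z hz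
            obtain ⟨n, rfl⟩ := mem_om.1 ha
            have h5 := app_eq (svl_of_isFunc hon2.1) hp
            rw [← h5, happ n]
            exact app_mem hon.1 ha
          · intro hz
            obtain ⟨a, ha, hp⟩ := hon.2 z hz
            obtain ⟨n, rfl⟩ := mem_om.1 ha
            have h5 := app_eq (svl_of_isFunc hon.1) hp
            rw [← h5, ← happ n]
            exact app_mem hon2.1 ha
      refine le_antisymm (bmap_le hσ x x) ?_
      rw [← hσ.tot x hxN]
      refine iSup_le fun y => ?_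
      by_cases hy : σ x y = ⊥
      · rw [hy]; exact bot_le
      · rw [hu y hy]
  refine ⟨htr, fun x hx => ⟨key x hx, ?_⟩⟩
  have h1 := key x hx
  exact (hAM B N' N b σ hN hσ x x H' HC (known_inf hσ (by rw [h1]; exact hb) hH)).1.1 hx

theorem ah (hTR : T_TR) (hTF : T_TF) (hAM : T_AM) (hAK : T_AK) : T_AH := by
  classical
  intro B _ N' N b σ hN hσ hb H' hH
  obtain ⟨htr, h1⟩ := ah1 hTR hAM hN hσ hb hH
  refine ⟨htr, h1, ?_⟩
  intro w hw
  have hwb : σ w w1 ≠ ⊥ := by rw [hw]; exact hb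
  have hwN : w ∈ N' := (hσ.dom w w1 hwb).1
  have trN : ∀ a ∈ N', ∀ c ∈ a, c ∈ N' := fun a ha c hc => hN.full.1 a ha hc
  obtain ⟨δ, rfl⟩ : IsOrd w :=
    (tr2 hTR (P := fun _ x _ => IsOrd x) (Dfb.isOrd (Tm.var 0)) hN hσ
      (known_inf hσ hwb hw)).2 ⟨_, rfl⟩
  have h2 : ∀ β < δ, β.toZFSet ∈ H' ∧ σ β.toZFSet β.toZFSet = b := by
    intro β hβ
    have h3 : β.toZFSet ∈ δ.toZFSet := Ordinal.toZFSet_mem_toZFSet_iff.2 hβ
    have h4 : β.toZFSet ∈ N' := trN _ hwN _ h3
    obtain ⟨y, hy⟩ := exists_val hσ h4 le_rfl hb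
    rw [inf_eq_left.2 (bmap_le hσ _ y)] at hy
    have h5 : y ∈ w1 := (hAM B N' N b σ hN hσ _ y _ w1 (known_inf hσ hy hw)).1.1 h3
    have h6 : β.toZFSet ∈ H' :=
      (hAM B N' N b σ hN hσ _ y H' HC (known_inf hσ hy hH)).1.2 (SF.H56.xb_w1 h5)
    exact ⟨h6, (h1 _ h6).1⟩
  have h3 : ∀ β : Ordinal.{0}, β.toZFSet ∈ N' → σ β.toZFSet β.toZFSet = b →
      (β < δ ↔ β < Ordinal.omega.{0} 1) := by
    intro β _ h
    have h4 := (hAM B N' N b σ hN hσ β.toZFSet β.toZFSet δ.toZFSet w1
      (known_inf hσ (by rw [h]; exact hb) hw)).1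
    rw [Ordinal.toZFSet_mem_toZFSet_iff] at h4
    unfold w1 at h4
    rw [Ordinal.toZFSet_mem_toZFSet_iff] at h4
    exact h4
  have hω : ω < δ := by
    obtain ⟨-, a1, a2⟩ := hAK B N' N b σ hN hσ hb
    exact (h3 ω a1 a2).2 Ordinal.omega0_lt_omega_one
  refine ⟨δ, rfl, hω, ?_, ?_, h2, ?_⟩
  · have hc : ((δ.toZFSet : V) : Set V).Countable :=
      hN.ctb.mono fun z hz => trN _ hwN _ hz
    rw [← Cardinal.ord_aleph, Cardinal.lt_ord, ← Cardinal.succ_aleph0, Order.lt_succ_iff,
      ← Ordinal.card_toZFSet, ← Cardinal.lift_le_aleph0.{0, 1}, ← ZFSet.cardinalMk_coe_sort]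
    exact Cardinal.le_aleph0_iff_set_countable.2 hc
  · refine ⟨?_, ?_⟩
    · intro hmin
      exact absurd (hmin (zero_le : (0 : Ordinal.{0}) ≤ δ))
        (not_le_of_gt (lt_trans Ordinal.omega0_pos hω))
    · rw [Order.isSuccPrelimit_iff_succ_lt]
      intro β hβ
      obtain ⟨a1, a2⟩ := h2 β hβ
      have h4 : insert β.toZFSet β.toZFSet ∈ δ.toZFSet :=
        (tr2 hTR (P := fun _ x y => insert x x ∈ y)
          (Dfb.mem (Tm.ins (Tm.var 0) (Tm.var 0)) (Tm.var 1)) hN hσ
          (known_inf hσ (by rw [a2]; exact hb) hw)).2 (by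
            rw [← Ordinal.toZFSet_succ]
            unfold w1
            rw [Ordinal.toZFSet_mem_toZFSet_iff]
            have h5 : β < Ordinal.omega.{0} 1 :=
              (h3 β (trN _ hwN _ (Ordinal.toZFSet_mem_toZFSet_iff.2 hβ)) a2).1 hβ
            exact (Cardinal.isSuccLimit_omega 1).succ_lt h5)
      rw [← Ordinal.toZFSet_succ, Ordinal.toZFSet_mem_toZFSet_iff] at h4
      exact h4
  · intro x hx
    obtain ⟨a1, a2⟩ := h1 x hx
    have h4 := hTF _ (Tm.rkS (Tm.var 0)) B N' N b σ hN hσ {(x, x)}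
      (by rw [Finset.inf_singleton]; show σ x x ≠ ⊥; rw [a1]; exact hb)
      (fun _ => (x, x)) (fun _ => Finset.mem_singleton_self _)
    obtain ⟨h5, h6⟩ := h4
    rw [Finset.inf_singleton] at h6
    have h7 : σ x.rank.toZFSet x.rank.toZFSet = b := by
      refine le_antisymm (bmap_le hσ _ _) ?_
      have h8 : σ x x ≤ σ x.rank.toZFSet x.rank.toZFSet := h6
      rwa [a1] at h8
    exact (h3 x.rank h5 h7).2 (SF.H56.xb_mem.1 a2).1

end SF.H66
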