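import Pool.Agent.H77.SF.KT

/-! KO: absolute functions are preserved by small embeddings. -/

set_option autoImplicit false

open Ordinal Cardinal Order Set
open SF
open scoped ZFSet

namespace SF.H66

theorem ko (hWA : T_WA) (hKM : T_KM) : T_KO := by
  intro κ' κ lam' lam j h F hF v hv
  obtain ⟨k1, k2, -, -, -⟩ := hKM κ' κ lam' lam j h
  have hE : ElemC (· ∈ V_ lam') (· ∈ V_ lam) (fun x => app j x) :=
    ⟨fun x hx => app_mem h.el.func hx, fun φ w hw => h.el.el φ w hw⟩
  exact ⟨hF.1 (· ∈ V_ lam') k1 v hv, (hWA KPw _ _ _ hE k1 k2).2 _ hF v hv⟩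

end SF.H66
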