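import Pool.Agent.H45.SF.GT
import Pool.Agent.H9.SF.Bas

/-! NR: the preimage of a generic filter is generic. -/

set_option autoImplicit false

open Ordinal Cardinal Order Set
open SF
open scoped ZFSet

namespace SF.H66

/-- transfer for relations of three known arguments -/
theorem tr3 (hTR : T_TR) {P : (V → Prop) → V → V → V → Prop}
    (hP : Dfb ZFm fun M v => P M (v 0) (v 1) (v 2)) {B : V} [IsCBA B] {N' N : V} {b : El B}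
    {σ : V → V → El B} (hN : NP N' N) (hσ : BMap N' N b σ) (hb : b ≠ ⊥) {x y x2 y2 x3 y3 : V}
    (h : σ x y = b) (h2 : σ x2 y2 = b) (h3 : σ x3 y3 = b) :
    P (· ∈ N) y y2 y3 → P (· ∈ N') x x2 x3 := by
  classical
  have h1 := hTR _ hP B N' N b σ hN hσ {(x, y), (x2, y2), (x3, y3)}
    (by
      rw [Finset.inf_insert, Finset.inf_insert, Finset.inf_singleton]
      show σ x y ⊓ (σ x2 y2 ⊓ σ x3 y3) ≠ ⊥
      rw [h, h2, h3, inf_idem, inf_idem]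
      exact hb)
    (fun i => if i = 0 then (x, y) else if i = 1 then (x2, y2) else (x3, y3)) (by
      intro i
      by_cases hi : i = 0
      · simp [hi]
      · by_cases hi' : i = 1
        · simp [hi']
        · simp [hi, hi'])
  intro h4
  have h5 : P (· ∈ N') x x2 x3 ↔ P (· ∈ N) y y2 y3 := by simpa using h1
  exact h5.2 h4

/-- the function `f` from `a` to `c` -/
def N1 (a c f : V) : Prop := ∀ p ∈ f, ∃ x ∈ a, ∃ z ∈ c, p = ZFSet.pair x z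
def N2 (a c f : V) : Prop := ∀ x ∈ a, ∃ z ∈ c, ZFSet.pair x z ∈ f
def N3 (a c f : V) : Prop :=
  ∀ x ∈ a, ∀ z ∈ c, ∀ w ∈ c, ZFSet.pair x z ∈ f → ZFSet.pair x w ∈ f → z = w
def N4 (a c f : V) : Prop :=
  ∀ x ∈ a, ∀ y ∈ a, ∀ z ∈ c, ∀ w ∈ c, ZFSet.pair x z ∈ f → ZFSet.pair y w ∈ f →
    ZFSet.pair (x ∩ y) (z ∩ w) ∈ f
def N5 (c : V) : Prop := ∀ y ∈ c, ∀ w ∈ c, y ∩ w ∈ c
def N6 (f : V) : Prop := ZFSet.pair ∅ ∅ ∈ f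
def DS (a D : V) : Prop := D ⊆ a ∧ ∀ x ∈ a, x ≠ ∅ → ∃ d ∈ D, d ≠ ∅ ∧ d ⊆ x
def N7 (M : V → Prop) (a c f : V) : Prop := ∀ D, M D → DS a D →
  ∀ x ∈ a, ∀ z ∈ c, ZFSet.pair x z ∈ f → ∀ y ∈ c, y ≠ ∅ → y ⊆ z →
    ∃ e ∈ D, ∃ w ∈ c, ZFSet.pair e w ∈ f ∧ y ∩ w ≠ ∅

theorem dN1 : Dfb ZFm fun _ v => N1 (v 0) (v 1) (v 2) :=
  (Dfb.ball ktr_zfm (Tm.var 2) (Dfb.bex ktr_zfm (Tm.var 1) (Dfb.bex ktr_zfm (Tm.var 3)
    (Dfb.eq (Tm.var 2) (Tm.pair (Tm.var 1) (Tm.var 0)))))).congr fun _ _ _ _ => Iff.rfl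

theorem dN2 : Dfb ZFm fun _ v => N2 (v 0) (v 1) (v 2) :=
  (Dfb.ball ktr_zfm (Tm.var 0) (Dfb.bex ktr_zfm (Tm.var 2)
    (Dfb.pairMem (Tm.var 1) (Tm.var 0) (Tm.var 4)))).congr fun _ _ _ _ => Iff.rfl

theorem dN3 : Dfb ZFm fun _ v => N3 (v 0) (v 1) (v 2) :=
  (Dfb.ball ktr_zfm (Tm.var 0) (Dfb.ball ktr_zfm (Tm.var 2) (Dfb.ball ktr_zfm (Tm.var 3)
    ((Dfb.pairMem (Tm.var 2) (Tm.var 1) (Tm.var 5)).imp
      ((Dfb.pairMem (Tm.var 2) (Tm.var 0) (Tm.var 5)).imp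
        (Dfb.eq (Tm.var 1) (Tm.var 0))))))).congr fun _ _ _ _ => Iff.rfl

theorem dN4 : Dfb ZFm fun _ v => N4 (v 0) (v 1) (v 2) :=
  (Dfb.ball ktr_zfm (Tm.var 0) (Dfb.ball ktr_zfm (Tm.var 1) (Dfb.ball ktr_zfm (Tm.var 3)
    (Dfb.ball ktr_zfm (Tm.var 4)
      ((Dfb.pairMem (Tm.var 3) (Tm.var 1) (Tm.var 6)).imp
        ((Dfb.pairMem (Tm.var 2) (Tm.var 0) (Tm.var 6)).imp
          (Dfb.pairMem (Tm.inter (Tm.var 3) (Tm.var 2)) (Tm.inter (Tm.var 1) (Tm.var 0))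
            (Tm.var 6)))))))).congr fun _ _ _ _ => Iff.rfl

theorem dN5 : Dfb ZFm fun _ v => N5 (v 1) :=
  (Dfb.ball ktr_zfm (Tm.var 1) (Dfb.ball ktr_zfm (Tm.var 2)
    (Dfb.mem (Tm.inter (Tm.var 1) (Tm.var 0)) (Tm.var 3)))).congr fun _ _ _ _ => Iff.rfl

theorem dN6 : Dfb ZFm fun _ v => N6 (v 2) :=
  (Dfb.pairMem Tm.empty Tm.empty (Tm.var 2)).congr fun _ _ _ _ => Iff.rfl

theorem dDS : Dfb ZFm fun _ v => DS (v 1) (v 0) := by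
  have h1 : Dfb ZFm (fun _ v => v 0 ≠ ∅ ∧ v 0 ⊆ v 1) :=
    (Dfb.eq (Tm.var 0) Tm.empty).not.and (Dfb.subset (Tm.var 0) (Tm.var 1))
  have h2 : Dfb ZFm (fun _ v => ∃ d ∈ v 1, d ≠ ∅ ∧ d ⊆ v 0) :=
    (Dfb.bex ktr_zfm (Tm.var 1) h1).congr fun _ _ _ _ => Iff.rfl
  have h3 : Dfb ZFm (fun _ v => v 0 ≠ ∅ → ∃ d ∈ v 1, d ≠ ∅ ∧ d ⊆ v 0) :=
    (Dfb.eq (Tm.var 0) Tm.empty).not.imp h2
  have h4 : Dfb ZFm (fun _ v => ∀ x ∈ v 1, x ≠ ∅ → ∃ d ∈ v 0, d ≠ ∅ ∧ d ⊆ x) :=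
    (Dfb.ball ktr_zfm (Tm.var 1) h3).congr fun _ _ _ _ => Iff.rfl
  exact (Dfb.subset (Tm.var 0) (Tm.var 1)).and h4

theorem dN7 : Dfb ZFm fun M v => N7 M (v 0) (v 1) (v 2) := by
  -- variables: y z x D a c f
  have h1 : Dfb ZFm (fun _ v => ∃ e ∈ v 3, ∃ w ∈ v 5, ZFSet.pair e w ∈ v 6 ∧ v 0 ∩ w ≠ ∅) :=
    (Dfb.bex ktr_zfm (Tm.var 3) (Dfb.bex ktr_zfm (Tm.var 6)
      ((Dfb.pairMem (Tm.var 1) (Tm.var 0) (Tm.var 8)).and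
        (Dfb.eq (Tm.inter (Tm.var 2) (Tm.var 0)) Tm.empty).not))).congr fun _ _ _ _ => Iff.rfl
  have h2 : Dfb ZFm (fun _ v => v 0 ≠ ∅ → v 0 ⊆ v 1 →
      ∃ e ∈ v 3, ∃ w ∈ v 5, ZFSet.pair e w ∈ v 6 ∧ v 0 ∩ w ≠ ∅) :=
    (Dfb.eq (Tm.var 0) Tm.empty).not.imp ((Dfb.subset (Tm.var 0) (Tm.var 1)).imp h1)
  have h3 : Dfb ZFm (fun _ v => ∀ x ∈ v 1, ∀ z ∈ v 2, ZFSet.pair x z ∈ v 3 → ∀ y ∈ v 2,
      y ≠ ∅ → y ⊆ z → ∃ e ∈ v 0, ∃ w ∈ v 2, ZFSet.pair e w ∈ v 3 ∧ y ∩ w ≠ ∅) :=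
    (Dfb.ball ktr_zfm (Tm.var 1) (Dfb.ball ktr_zfm (Tm.var 3)
      ((Dfb.pairMem (Tm.var 1) (Tm.var 0) (Tm.var 5)).imp
        (Dfb.ball ktr_zfm (Tm.var 4) h2)))).congr fun _ _ _ _ => Iff.rfl
  exact ((dDS.imp h3).all).congr fun _ _ _ _ => Iff.rfl

theorem mem_gr {C1 C2 : V} [IsCBA C1] [IsCBA C2] (h : Mor C1 C2) {p : V} :
    p ∈ h.gr ↔ ∃ x : El C1, ZFSet.pair x.val (h x).val = p := by
  unfold Mor.gr
  rw [ZFSet.mem_range]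

theorem pair_mem_gr {C1 C2 : V} [IsCBA C1] [IsCBA C2] (h : Mor C1 C2) {x y : V} :
    ZFSet.pair x y ∈ h.gr ↔ ∃ hx : x ∈ C1, (h ⟨x, hx⟩).val = y := by
  rw [mem_gr]
  constructor
  · rintro ⟨z, hz⟩
    obtain ⟨h1, h2⟩ := ZFSet.pair_inj.1 hz
    subst h1
    exact ⟨z.mem, h2⟩
  · rintro ⟨hx, rfl⟩
    exact ⟨⟨x, hx⟩, rfl⟩

theorem gr_N1 {C1 C2 : V} [IsCBA C1] [IsCBA C2] (h : Mor C1 C2) : N1 C1 C2 h.gr := by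
  intro p hp
  obtain ⟨x, rfl⟩ := (mem_gr h).1 hp
  exact ⟨x.val, x.mem, (h x).val, (h x).mem, rfl⟩

theorem gr_N2 {C1 C2 : V} [IsCBA C1] [IsCBA C2] (h : Mor C1 C2) : N2 C1 C2 h.gr := by
  intro x hx
  exact ⟨(h ⟨x, hx⟩).val, (h ⟨x, hx⟩).mem, (pair_mem_gr h).2 ⟨hx, rfl⟩⟩

theorem gr_N3 {C1 C2 : V} [IsCBA C1] [IsCBA C2] (h : Mor C1 C2) : N3 C1 C2 h.gr := by
  intro x hx z _ w _ h1 h2
  obtain ⟨_, h3⟩ := (pair_mem_gr h).1 h1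
  obtain ⟨_, h4⟩ := (pair_mem_gr h).1 h2
  rw [← h3, ← h4]

theorem gr_N4 {C1 C2 : V} [IsCBA C1] [IsCBA C2] (h : Mor C1 C2) : N4 C1 C2 h.gr := by
  intro x hx y hy z _ w _ h1 h2
  obtain ⟨_, h3⟩ := (pair_mem_gr h).1 h1
  obtain ⟨_, h4⟩ := (pair_mem_gr h).1 h2
  refine (mem_gr h).2 ⟨⟨x, hx⟩ ⊓ ⟨y, hy⟩, ?_⟩
  have h5 : h (⟨x, hx⟩ ⊓ ⟨y, hy⟩) = h ⟨x, hx⟩ ⊓ h ⟨y, hy⟩ := h.inf _ _
  rw [h5, El.inf_val, El.inf_val, h3, h4]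

theorem gr_N6 {C1 C2 : V} [IsCBA C1] [IsCBA C2] (hMB : T_MB) (h : Mor C1 C2) : N6 h.gr := by
  refine (mem_gr h).2 ⟨⊥, ?_⟩
  rw [(hMB C1 C2 h).2.1, El.bot_val, El.bot_val]

theorem gr_N7 {C1 C2 : V} [IsCBA C1] [IsCBA C2] (hMB : T_MB) (h : Mor C1 C2) (M : V → Prop) :
    N7 M C1 C2 h.gr := by
  obtain ⟨hmono, hbot, -, -, -, hsup, -⟩ := hMB C1 C2 h
  rintro D _ ⟨hD, hdn⟩ x hx z _ hxz y hy hy0 hyz
  obtain ⟨_, rfl⟩ := (pair_mem_gr h).1 hxz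
  by_contra hcon
  -- the join of `D` is the top
  let I : Type 1 := {e : El C1 // e.val ∈ D}
  have h1 : (⨆ i : I, i.1) = ⊤ := by
    by_contra h2
    have h3 : (⨆ i : I, i.1)ᶜ ≠ ⊥ := by
      intro h4
      exact h2 (compl_eq_bot.1 h4)
    have h4 : ((⨆ i : I, i.1)ᶜ).val ≠ ∅ := by
      intro h5
      apply h3
      apply El.ext
      rw [h5, El.bot_val]
    obtain ⟨d, hd, hd0, hds⟩ := hdn _ ((⨆ i : I, i.1)ᶜ).mem h4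
    let e : El C1 := ⟨d, hD hd⟩
    have h5 : e ≤ (⨆ i : I, i.1)ᶜ := El.le_iff.2 hds
    have h6 : e ≤ ⨆ i : I, i.1 := le_iSup (fun i : I => i.1) ⟨e, hd⟩
    have h7 : e ≤ ⊥ := by
      rw [← inf_compl_eq_bot (a := ⨆ i : I, i.1)]
      exact le_inf h6 h5
    have h8 : e = ⊥ := le_bot_iff.1 h7
    apply hd0
    have h9 : e.val = (⊥ : El C1).val := by rw [h8]
    rw [El.bot_val] at h9
    exact h9
  let Y : El C2 := ⟨y, hy⟩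
  have h2 : Y ≤ h ⊤ := (El.le_iff.2 hyz : Y ≤ h ⟨x, hx⟩).trans (hmono _ _ le_top)
  have h3 : Y = ⊥ := by
    rw [← h1, hsup] at h2
    rw [← inf_eq_left.2 h2, inf_iSup_eq]
    refine iSup_eq_bot.2 fun i => ?_
    by_contra h4
    apply hcon
    refine ⟨i.1.val, i.2, (h i.1).val, (h i.1).mem, (mem_gr h).2 ⟨i.1, rfl⟩, ?_⟩
    intro h5
    apply h4
    apply El.ext
    rw [El.inf_val, El.bot_val]
    exact h5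
  apply hy0
  have h4 : Y.val = (⊥ : El C2).val := by rw [h3]
  rw [El.bot_val] at h4
  exact h4

/-- separation in `N'` for the set used below -/
theorem sepD {M : V → Prop} (k : ZFm M) {c D f t : V} (hc : M c) (hD : M D) (hf : M f)
    (ht : M t) : M (c.sep fun d => (∃ e ∈ D, ∃ w ∈ c, ZFSet.pair e w ∈ f ∧ d ⊆ w) ∨
      d ∩ t = ∅) := by
  -- variables: d, c, D, f, t
  have h1 : Dfb ZFm (fun _ v => (∃ e ∈ v 2, ∃ w ∈ v 1, ZFSet.pair e w ∈ v 3 ∧ v 0 ⊆ w)) :=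
    (Dfb.bex ktr_zfm (Tm.var 2) (Dfb.bex ktr_zfm (Tm.var 2)
      ((Dfb.pairMem (Tm.var 1) (Tm.var 0) (Tm.var 5)).and
        (Dfb.subset (Tm.var 2) (Tm.var 0))))).congr fun _ _ _ _ => Iff.rfl
  have h2 : Dfb ZFm (fun _ v => (∃ e ∈ v 2, ∃ w ∈ v 1, ZFSet.pair e w ∈ v 3 ∧ v 0 ⊆ w) ∨
      v 0 ∩ v 4 = ∅) :=
    h1.or (Dfb.eq (Tm.inter (Tm.var 0) (Tm.var 4)) Tm.empty)
  have h3 := (Tm.sep h2 (Tm.var 0)).1 M k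
    (fun i => if i = 0 then c else if i = 1 then D else if i = 2 then f else t) (by
      intro i
      dsimp only
      split_ifs
      · exact hc
      · exact hD
      · exact hf
      · exact ht)
  simpa using h3

theorem nr (hMB : T_MB) (hZN : T_ZN) (hTR : T_TR) : T_NR := by
  intro B _ N' N b σ hN hσ hb C1 C2 _ _ h P' C1' C2' h' G' _ hC1 hC2 hh hG htop
  have n1 : N1 C1' C2' h' := tr3 hTR (P := fun _ a c f => N1 a c f) dN1 hN hσ hb hC1 hC2 hh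
    (gr_N1 h)
  have n2 : N2 C1' C2' h' := tr3 hTR (P := fun _ a c f => N2 a c f) dN2 hN hσ hb hC1 hC2 hh
    (gr_N2 h)
  have n3 : N3 C1' C2' h' := tr3 hTR (P := fun _ a c f => N3 a c f) dN3 hN hσ hb hC1 hC2 hh
    (gr_N3 h)
  have n4 : N4 C1' C2' h' := tr3 hTR (P := fun _ a c f => N4 a c f) dN4 hN hσ hb hC1 hC2 hh
    (gr_N4 h)
  have n5 : N5 C2' := tr3 hTR (P := fun _ _ c _ => N5 c) dN5 hN hσ hb hC1 hC2 hh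
    (fun y hy w hw => IsCBA.inter y hy w hw)
  have n6 : N6 h' := tr3 hTR (P := fun _ _ _ f => N6 f) dN6 hN hσ hb hC1 hC2 hh (gr_N6 hMB h)
  have n7 : N7 (· ∈ N') C1' C2' h' := tr3 hTR (P := fun M a c f => N7 M a c f) dN7 hN hσ hb
    hC1 hC2 hh (gr_N7 hMB h _)
  have nm : ∀ x z, ZFSet.pair x z ∈ h' → x ∈ C1' ∧ z ∈ C2' := by
    intro x z hxz
    obtain ⟨x', hx', z', hz', he⟩ := n1 _ hxz
    obtain ⟨rfl, rfl⟩ := ZFSet.pair_inj.1 he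
    exact ⟨hx', hz'⟩
  have mp : ∀ x, x ∈ pull C1' h' G' ↔ ∃ y ∈ G', ZFSet.pair x y ∈ h' := by
    intro x
    unfold pull
    rw [ZFSet.mem_sep]
    constructor
    · exact fun h => h.2
    · rintro ⟨y, hy, hxy⟩
      exact ⟨(nm x y hxy).1, y, hy, hxy⟩
  refine ⟨fun x hx => (ZFSet.mem_sep.1 hx).1, ?_, ?_, ?_, ?_, ?_⟩
  · obtain ⟨x, y, hxy, hy⟩ := htop
    exact ⟨x, (mp x).2 ⟨y, hy, hxy⟩⟩
  · intro h0
    obtain ⟨y, hy, hxy⟩ := (mp _).1 h0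
    have h1 := nm _ _ hxy
    have h2 := nm _ _ n6
    have h3 : y = ∅ := n3 ∅ h1.1 y h1.2 ∅ h2.2 hxy n6
    rw [h3] at hy
    exact hG.bot hy
  · intro x hx y hy hxy
    obtain ⟨z, hz, hxz⟩ := (mp _).1 hx
    obtain ⟨w, hw, hyw⟩ := n2 y hy
    obtain ⟨hx1, hz1⟩ := nm _ _ hxz
    have h1 := n4 x hx1 y hy z hz1 w hw hxz hyw
    have h2 : x ∩ y = x := by
      ext u
      rw [ZFSet.mem_inter]
      exact ⟨fun h => h.1, fun h => ⟨h, hxy h⟩⟩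
    rw [h2] at h1
    have h3 : z = z ∩ w := n3 x hx1 z hz1 (z ∩ w) (nm _ _ h1).2 hxz h1
    refine (mp _).2 ⟨w, hG.up z hz w hw ?_, hyw⟩
    intro u hu
    rw [h3] at hu
    exact (ZFSet.mem_inter.1 hu).2
  · intro x hx y hy
    obtain ⟨z, hz, hxz⟩ := (mp _).1 hx
    obtain ⟨w, hw, hyw⟩ := (mp _).1 hy
    obtain ⟨hx1, hz1⟩ := nm _ _ hxz
    obtain ⟨hy1, hw1⟩ := nm _ _ hyw
    exact (mp _).2 ⟨z ∩ w, hG.inter z hz w hw, n4 x hx1 y hy1 z hz1 w hw1 hxz hyw⟩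
  · intro D hDN hD hdn
    obtain ⟨x0, t, hx0t, ht⟩ := htop
    obtain ⟨hx0, htC⟩ := nm _ _ hx0t
    have kN : ZFm (· ∈ N') := (hZN B N' N b σ hN hσ hb).toZFm
    have hC2N : C2' ∈ N' := (hσ.dom C2' C2 (by rw [hC2]; exact hb)).1
    have hhN : h' ∈ N' := (hσ.dom h' h.gr (by rw [hh]; exact hb)).1
    have htN : t ∈ N' := kN.trans _ hC2N _ htC
    have h1 := sepD kN (c := C2') (D := D) (f := h') (t := t) hC2N hDN hhN htN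
    obtain ⟨d, hd, hdG⟩ := hG.meets _ h1 (fun x hx => (ZFSet.mem_sep.1 hx).1) (by
      intro y hy hy0
      by_cases hyt : y ∩ t = ∅
      · exact ⟨y, ZFSet.mem_sep.2 ⟨hy, Or.inr hyt⟩, hy0, fun _ h => h⟩
      · have h2 : y ∩ t ∈ C2' := n5 y hy t htC
        obtain ⟨e, he, w, hw, hew, hne⟩ := n7 D hDN ⟨hD, hdn⟩ x0 hx0 t htC hx0t (y ∩ t) h2 hyt
          (fun u hu => (ZFSet.mem_inter.1 hu).2)
        refine ⟨y ∩ t ∩ w, ZFSet.mem_sep.2 ⟨n5 _ h2 w hw, Or.inl ⟨e, he, w, hw, hew,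
          fun u hu => (ZFSet.mem_inter.1 hu).2⟩⟩, hne, ?_⟩
        intro u hu
        exact (ZFSet.mem_inter.1 (ZFSet.mem_inter.1 hu).1).1)
    obtain ⟨hdC, h2 | h2⟩ := ZFSet.mem_sep.1 hd
    · obtain ⟨e, he, w, hw, hew, hdw⟩ := h2
      exact ⟨e, he, (mp _).2 ⟨w, hG.up d hdG w hw hdw, hew⟩⟩
    · have h3 := hG.inter d hdG t ht
      rw [h2] at h3
      exact absurd h3 hG.bot

end SF.H66
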